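import Pool.Agent.helper49.B2.R1b
import Pool.Agent.helper72.B2.GC
import Pool.Agent.helper46.B2.GB
import Pool.Agent.helper30.B2.LA2
import Pool.Agent.helper74.B2.AD

/-! # B2 wave 3, module NZ: nonvanishing 2-jets -/

set_option autoImplicit false

namespace Pool.Agent.helper68.B2

open scoped ContDiff Topology Matrix
open Matrix Set

theorem NZ_cross_smul_left (s : ℝ) (A B : M3) : crossM (s • A) B = s • crossM A B := by
  unfold crossM
  simp only [smul_mul_assoc, mul_smul_comm, Matrix.trace_smul, smul_eq_mul, smul_sub, smul_add,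
    smul_smul]
  congr 2
  · rw [mul_comm s]
  · congr 1
    ring

theorem NZ_cross_comm (A B : M3) : crossM A B = crossM B A := by
  unfold crossM
  rw [Matrix.trace_mul_comm A B, mul_comm A.trace, add_comm (A * B)]
  congr 1
  abel

theorem NZ_cross_smul_right (s : ℝ) (A B : M3) : crossM A (s • B) = s • crossM A B := by
  rw [NZ_cross_comm, NZ_cross_smul_left, NZ_cross_comm]

theorem NZ_odot_smul (G : M3) (s : ℝ) (u w : V3) : odot G u (s • w) = s • odot G u w := by
  unfold odot
  rw [mulVec_smul, smul_add]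
  congr 1
  · ext i j; simp [vecMulVec_apply]; ring
  · ext i j; simp [vecMulVec_apply]; ring

theorem NZ_odot_add_left (G : M3) (u u' w : V3) :
    odot G (u + u') w = odot G u w + odot G u' w := by
  unfold odot
  rw [mulVec_add]
  ext i j
  simp [vecMulVec_apply]
  ring

/-- polarised form of `AD_odot` -/
theorem NZ_pol (G : M3) (hG : Gᵀ = G) (w v u : V3) :
    crossM (odot G w u) (odot G v u) =
      -(vecMulVec (G.adjugate *ᵥ crossProduct u w) (crossProduct u v) +
        vecMulVec (G.adjugate *ᵥ crossProduct u v) (crossProduct u w)) := by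
  have h1 := AD_odot G hG (w + v) u
  rw [NZ_odot_add_left, AD_add, AD_odot G hG, AD_odot G hG] at h1
  have h2 : crossProduct w u = -crossProduct u w := by rw [cross_anticomm]
  have h3 : crossProduct v u = -crossProduct u v := by rw [cross_anticomm]
  rw [map_add, LinearMap.add_apply, h2, h3] at h1
  have h4 : crossM (odot G w u) (odot G v u) =
      -vecMulVec (G.adjugate *ᵥ (-crossProduct u w + -crossProduct u v))
        (-crossProduct u w + -crossProduct u v)
      + vecMulVec (G.adjugate *ᵥ -crossProduct u w) (-crossProduct u w)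
      + vecMulVec (G.adjugate *ᵥ -crossProduct u v) (-crossProduct u v) := by
    rw [← h1]; abel
  rw [h4]
  simp only [mulVec_add, mulVec_neg]
  ext i j
  simp only [Matrix.add_apply, Matrix.neg_apply, vecMulVec_apply, Pi.add_apply, Pi.neg_apply]
  ring

theorem NZ_vec_smul_right (a b : V3) (s : ℝ) : vecMulVec a (s • b) = s • vecMulVec a b := by
  ext i j; simp [vecMulVec_apply]; ring

theorem NZ_vec_smul_left (a b : V3) (s : ℝ) : vecMulVec (s • a) b = s • vecMulVec a b := by
  ext i j; simp [vecMulVec_apply]; ring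

namespace Geo
variable (S : Geo)

/-- the common core -/
theorem NZ_core (hNC : S.NC) {x : E4} (hx : x ≠ 0) {c s l θ : ℝ} {u : V3}
    (hL : S.L x - c • (1 : M3) = s • vecMulVec u (S.G x *ᵥ u)) (hl : S.lam x = l • u)
    (hΛ : ∀ w, crossProduct u (S.Lam x *ᵥ w) = θ • crossProduct u w) : s * θ ≠ l ^ 2 := by
  intro hcon
  have hG := S.symm x hx
  refine S.R1 hNC c (S.UC_K c hx ?_ ?_ ?_)
  · unfold Geo.K
    rw [hL, ← NZ_vec_smul_left, AD_adj_dyad]
  · intro v
    rw [hL, hl]
    unfold Geo.od
    rw [NZ_odot_smul, NZ_cross_smul_left, NZ_cross_smul_right, AD_dyad_odot _ hG, cross_self]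
    simp
  · intro v w
    rw [hL, hl]
    unfold Geo.od
    rw [NZ_odot_smul, NZ_odot_smul, NZ_cross_smul_left, NZ_cross_smul_right, NZ_cross_smul_left,
      AD_dyad_odot _ hG, NZ_pol _ hG, hΛ, NZ_vec_smul_right, mulVec_smul, NZ_vec_smul_left]
    ext i j
    simp only [Matrix.add_apply, Matrix.neg_apply, Matrix.smul_apply, Matrix.zero_apply,
      smul_eq_mul, vecMulVec_apply]
    have : l * l = s * θ := by rw [hcon]; ring
    linear_combination -((S.G x).adjugate *ᵥ crossProduct u w) i * (crossProduct u v) j * this -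
      ((S.G x).adjugate *ᵥ crossProduct u v) i * (crossProduct u w) j * this

theorem NZ_vecG (x : E4) (u v w : V3) :
    vecMulVec u (S.G x *ᵥ v) *ᵥ w = S.g x w v • u := by
  rw [GA_vecMulVec_mulVec, dotProduct_comm]
  rfl

/-- block-scalar point with `lam` in the direction of the third eigenvector -/
theorem NZ_D (hNC : S.NC) {x : E4} (hx : x ≠ 0) {z n e : V3} (hf : NFrame (S.G x) z n e)
    {μ b : ℝ} (hb : b ≠ μ) (hz : S.L x *ᵥ z = μ • z) (hn : S.L x *ᵥ n = μ • n)
    (he : S.L x *ᵥ e = b • e) {l θ : ℝ} (hl : S.lam x = l • e) (hθz : S.Lam x *ᵥ z = θ • z)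
    (hθn : S.Lam x *ᵥ n = θ • n) : θ * (b - μ) ≠ l ^ 2 := by
  have hG := S.symm x hx
  have _ := hb
  have he0 : e ≠ 0 := by
    rintro rfl
    have := hf.ee
    simp [bil] at this
  obtain ⟨θ', hθ'⟩ := S.F1 hx he0 he
  rw [mul_comm]
  refine S.NZ_core hNC hx (c := μ) (u := e) ?_ hl ?_
  · refine hf.ext hG ?_ ?_ ?_
    · rw [sub_mulVec, smul_mulVec, one_mulVec, hz, sub_self, smul_mulVec, S.NZ_vecG]
      have : S.g x z e = 0 := hf.ze
      rw [this]; simp
    · rw [sub_mulVec, smul_mulVec, one_mulVec, hn, sub_self, smul_mulVec, S.NZ_vecG]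
      have : S.g x n e = 0 := hf.ne
      rw [this]; simp
    · rw [sub_mulVec, smul_mulVec, one_mulVec, he, smul_mulVec, S.NZ_vecG]
      have : S.g x e e = 1 := hf.ee
      rw [this, one_smul, sub_smul]
  · intro w
    have hw := hf.expand hG w
    set p := bil (S.G x) w n
    set q := bil (S.G x) w z
    set r := bil (S.G x) w e
    rw [hw]
    simp only [mulVec_add, mulVec_smul, hθz, hθn, hθ', map_add, map_smul, cross_self, smul_zero,
      add_zero, smul_add]
    rw [smul_comm p, smul_comm q]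

/-- nilpotent of rank one, `lam` in the null direction -/
theorem NZ_2J (hNC : S.NC) {x : E4} (hx : x ≠ 0) {z n e : V3} (hf : NFrame (S.G x) z n e)
    {c ε : ℝ} (hε : ε = 1 ∨ ε = -1) (hz : S.L x *ᵥ z = c • z) (he : S.L x *ᵥ e = c • e)
    (hn : S.L x *ᵥ n = c • n + ε • z) {β θ : ℝ} (hl : S.lam x = β • z)
    (hθz : S.Lam x *ᵥ z = θ • z) (hθe : S.Lam x *ᵥ e = θ • e) : β ^ 2 - ε * θ ≠ 0 := by
  have hG := S.symm x hx
  have _ := hε
  have hcore := S.NZ_core hNC hx (c := c) (s := ε) (l := β) (θ := θ) (u := z) ?_ hl ?_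
  · intro hcon
    exact hcore (by linarith)
  · refine hf.ext hG ?_ ?_ ?_
    · rw [sub_mulVec, smul_mulVec, one_mulVec, hz, sub_self, smul_mulVec, S.NZ_vecG]
      have : S.g x z z = 0 := hf.zz
      rw [this]; simp
    · rw [sub_mulVec, smul_mulVec, one_mulVec, hn, smul_mulVec, S.NZ_vecG]
      have : S.g x n z = 1 := by rw [S.g_symm hx]; exact hf.zn
      rw [this]; simp
    · rw [sub_mulVec, smul_mulVec, one_mulVec, he, sub_self, smul_mulVec, S.NZ_vecG]
      have : S.g x e z = 0 := by rw [S.g_symm hx]; exact hf.ze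
      rw [this]; simp
  · -- `Lam n = θ n + r z`
    have hn' : ∃ r' : ℝ, S.Lam x *ᵥ n = r' • z + θ • n := by
      have h1 := hf.expand hG (S.Lam x *ᵥ n)
      have h2 : bil (S.G x) (S.Lam x *ᵥ n) z = θ := by
        have h3 := S.g_Lam hx n z
        rw [hθz] at h3
        unfold Geo.g at h3
        rw [h3, GA_bil_smul_right, GA_bil_symm hG, hf.zn, mul_one]
      have h4 : bil (S.G x) (S.Lam x *ᵥ n) e = 0 := by
        have h3 := S.g_Lam hx n e
        rw [hθe] at h3
        unfold Geo.g at h3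
        rw [h3, GA_bil_smul_right, hf.ne, mul_zero]
      rw [h2, h4, zero_smul, add_zero] at h1
      exact ⟨_, h1⟩
    obtain ⟨r', hn'⟩ := hn'
    intro w
    have hw := hf.expand hG w
    set p := bil (S.G x) w n
    set q := bil (S.G x) w z
    set r := bil (S.G x) w e
    rw [hw]
    simp only [mulVec_add, mulVec_smul, hθz, hn', hθe, map_add, map_smul, cross_self, smul_zero,
      zero_add, smul_add]
    rw [smul_comm q, smul_comm r]

/-- scalar point with `lam = 0` -/
theorem NZ_0 (hNC : S.NC) {x : E4} (hx : x ≠ 0) {c : ℝ} (hL : S.L x = c • (1 : M3))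
    (hl : S.lam x = 0) : False := by
  have h0 : S.L x - c • (1 : M3) = (0 : ℝ) • vecMulVec (0 : V3) (S.G x *ᵥ (0 : V3)) := by
    rw [hL, sub_self, zero_smul]
  exact S.NZ_core hNC hx (c := c) (s := 0) (l := 0) (θ := 0) (u := 0) h0 (by rw [hl]; simp)
    (fun w => by simp) (by simp)

end Geo

end Pool.Agent.helper68.B2
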