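import Pool.Agent.helper30.B2.LA2
import Pool.Agent.helper98.B2.GA

/-! # B2 wave 3, module A1: Lemma A, first order part -/

set_option autoImplicit false

namespace Pool.Agent.helper68.B2

open scoped ContDiff Topology Matrix
open Matrix Set

theorem A1_chi (A : M3) (s : ℝ) :
    (s • (1 : M3) - A).det = s ^ 3 - A.trace * s ^ 2 + A.adjugate.trace * s - A.det := by
  simp [det_fin_three, trace_fin_three, adjugate_fin_three, Matrix.sub_apply, Matrix.smul_apply,
    Matrix.one_apply]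
  ring

theorem A1_sym {A : M3} {a b c : ℝ} (h : RR3 A a b c) :
    A.trace = a + b + c ∧ A.adjugate.trace = a * b + a * c + b * c ∧ A.det = a * b * c := by
  have h0 := h 0
  have h1 := h 1
  have h2 := h (-1)
  rw [A1_chi] at h0 h1 h2
  refine ⟨?_, ?_, ?_⟩ <;> linarith

theorem A1_shift {A : M3} {a b c : ℝ} (h : RR3 A a b c) (μ : ℝ) :
    RR3 (A - μ • (1 : M3)) (a - μ) (b - μ) (c - μ) := by
  intro t
  have h1 : t • (1 : M3) - (A - μ • (1 : M3)) = (t + μ) • (1 : M3) - A := by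
    rw [add_smul]; abel
  rw [h1, h]
  ring

theorem A1_perm₁ {A : M3} {a b c : ℝ} (h : RR3 A a b c) : RR3 A b a c := by
  intro t; rw [h]; ring

theorem A1_perm₂ {A : M3} {a b c : ℝ} (h : RR3 A a b c) : RR3 A c a b := by
  intro t; rw [h]; ring

theorem A1_perm₃ {A : M3} {a b c : ℝ} (h : RR3 A a b c) : RR3 A a c b := by
  intro t; rw [h]; ring

theorem A1_root {A : M3} {a b c μ : ℝ} (h : RR3 A a b c) {z : V3} (hz : z ≠ 0)
    (he : A *ᵥ z = μ • z) : μ = a ∨ μ = b ∨ μ = c := by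
  have h1 : (μ • (1 : M3) - A).det = 0 := by
    rw [← Matrix.exists_mulVec_eq_zero_iff]
    exact ⟨z, hz, by rw [sub_mulVec, smul_mulVec, one_mulVec, he, sub_self]⟩
  rw [h] at h1
  rcases mul_eq_zero.1 h1 with h2 | h2
  · rcases mul_eq_zero.1 h2 with h3 | h3
    · left; linarith
    · right; left; linarith
  · right; right; linarith

/-- the eigenvalue of a null eigenvector is at least a double root -/
theorem A1_double {G A : M3} (h : Lor G) (hA : SA G A) {a b c : ℝ} (hr : RR3 A a b c) {z : V3}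
    (hz : z ≠ 0) (hzz : bil G z z = 0) {μ : ℝ} (he : A *ᵥ z = μ • z) : ∃ b', RR3 A μ μ b' := by
  have hex : ∃ b' c', RR3 A μ b' c' := by
    rcases A1_root hr hz he with h1 | h1 | h1
    · subst h1; exact ⟨_, _, hr⟩
    · subst h1; exact ⟨_, _, A1_perm₁ hr⟩
    · subst h1; exact ⟨_, _, A1_perm₂ hr⟩
  obtain ⟨b', c', hr'⟩ := hex
  by_cases h1 : μ = b'
  · subst h1; exact ⟨c', hr'⟩
  · by_cases h2 : μ = c'
    · subst h2; exact ⟨b', A1_perm₃ hr'⟩
    · have := LA_simple h hA hr' h1 h2 hz he hzz.le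
      rw [hzz] at this
      exact absurd this (lt_irrefl _)

theorem A1_crossM_self (A : M3) : crossM A A = (2 : ℝ) • A.adjugate := by
  unfold crossM
  ext i j
  fin_cases i <;> fin_cases j <;>
    simp [trace_fin_three, adjugate_fin_three, Matrix.mul_apply, Fin.sum_univ_three,
      Matrix.sub_apply, Matrix.add_apply, Matrix.smul_apply] <;> ring

theorem A1_e2 (A : M3) : A.trace * A.trace - (A * A).trace = 2 * A.adjugate.trace := by
  simp [trace_fin_three, adjugate_fin_three, Matrix.mul_apply, Fin.sum_univ_three]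
  ring

theorem A1_adj_mulVec (A : M3) (v : V3) : (2 : ℝ) • (A.adjugate *ᵥ v) =
    (2 : ℝ) • (A *ᵥ (A *ᵥ v)) - (2 * A.trace) • (A *ᵥ v) + (2 * A.adjugate.trace) • v := by
  rw [← smul_mulVec, ← A1_crossM_self, ← A1_e2]
  unfold crossM
  simp only [add_mulVec, sub_mulVec, smul_mulVec, one_mulVec, ← mulVec_mulVec]
  module

namespace Geo
variable (S : Geo)

theorem A1_Lor {x : E4} (hx : x ≠ 0) : Lor (S.G x) := ⟨S.symm x hx, S.det_neg x hx, S.pos x hx⟩

/-- the first order condition at a point with a double eigenvalue -/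
theorem A1_Klam (hreal : ∀ x, x ≠ 0 → ∃ a b c : ℝ, RR3 (S.L x) a b c) {x : E4} (hx : x ≠ 0)
    {μ b : ℝ} (hr : RR3 (S.L x) μ μ b) (hb : b ≠ μ) : S.K μ x *ᵥ S.lam x = 0 := by
  have hdiff : DifferentiableAt ℝ (fun y => S.L y - μ • (1 : M3)) x := S.GA_diffLt μ hx
  have hE : DifferentiableAt ℝ (fun y => (S.L y - μ • (1 : M3)).adjugate.trace) x := by
    have h1 : ContDiffAt ℝ ∞ (fun y => S.L y - μ • (1 : M3)) x :=
      (S.smL.contDiffAt hx).sub contDiffAt_const
    exact (contDiffAt_trace (contDiffAt_adjugate h1)).differentiableAt (by simp)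
  have hF : DifferentiableAt ℝ (fun y => (S.L y - μ • (1 : M3)).det) x := by
    have h1 : ContDiffAt ℝ ∞ (fun y => S.L y - μ • (1 : M3)) x :=
      (S.smL.contDiffAt hx).sub contDiffAt_const
    exact (contDiffAt_det h1).differentiableAt (by simp)
  have hT : DifferentiableAt ℝ (fun y => (S.L y - μ • (1 : M3)).trace) x := by
    have h1 : ContDiffAt ℝ ∞ (fun y => S.L y - μ • (1 : M3)) x :=
      (S.smL.contDiffAt hx).sub contDiffAt_const
    exact (contDiffAt_trace h1).differentiableAt (by simp)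
  obtain ⟨hx1, hx2, hx3⟩ := A1_sym (A1_shift hr μ)
  have hE0 : (S.L x - μ • (1 : M3)).adjugate.trace = 0 := by rw [hx2]; ring
  have hF0 : (S.L x - μ • (1 : M3)).det = 0 := by rw [hx3]; ring
  have hT0 : (S.L x - μ • (1 : M3)).trace = b - μ := by rw [hx1]; ring
  set Φ : E4 → ℝ := fun y => (S.L y - μ • (1 : M3)).adjugate.trace ^ 2 -
    2 * ((S.L y - μ • (1 : M3)).det * (S.L y - μ • (1 : M3)).trace) with hΦ
  have hmin : IsLocalMin Φ x := by
    have h1 : Φ x = 0 := by simp only [hΦ, hE0, hF0]; ring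
    have h2 : ∀ᶠ y in 𝓝 x, y ≠ 0 := isOpen_ne.mem_nhds hx
    filter_upwards [h2] with y hy
    obtain ⟨a', b', c', hr'⟩ := hreal y hy
    obtain ⟨h3, h4, h5⟩ := A1_sym (A1_shift hr' μ)
    rw [h1]
    simp only [hΦ]
    rw [h3, h4, h5]
    have : ((a' - μ) * (b' - μ) + (a' - μ) * (c' - μ) + (b' - μ) * (c' - μ)) ^ 2 -
        2 * ((a' - μ) * (b' - μ) * (c' - μ) * (a' - μ + (b' - μ) + (c' - μ))) =
      ((a' - μ) * (b' - μ)) ^ 2 + ((a' - μ) * (c' - μ)) ^ 2 + ((b' - μ) * (c' - μ)) ^ 2 := by ring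
    rw [this]
    positivity
  have hder := hmin.fderiv_eq_zero
  have hder2 : HasFDerivAt Φ _ x :=
    (hE.hasFDerivAt.pow 2).sub ((hF.hasFDerivAt.mul hT.hasFDerivAt).const_mul 2)
  rw [hder2.fderiv] at hder
  refine S.g_nondeg hx fun v => ?_
  have h1 := congrArg (fun l : E4 →L[ℝ] ℝ => l (fld v x)) hder
  simp only [hE0, hF0, hT0, zero_smul, zero_add, ContinuousLinearMap.sub_apply,
    ContinuousLinearMap.smul_apply, ContinuousLinearMap.add_apply, smul_eq_mul,
    ContinuousLinearMap.zero_apply] at h1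
  have h2 : Dv (fun y => (S.L y - μ • (1 : M3)).det) v x = 0 := by
    unfold Dv
    have h3 : b - μ ≠ 0 := sub_ne_zero.2 hb
    have h4 : (b - μ) * (fderiv ℝ (fun y => (S.L y - μ • (1 : M3)).det) x) (fld v x) = 0 := by
      simp at h1
      rcases h1 with h1 | h1
      · exact absurd h1 h3
      · rw [h1, mul_zero]
    exact (mul_eq_zero.1 h4).resolve_left h3
  rw [S.Dv_detL μ hx v] at h2
  linarith

/-! ## b2:A1  Lemma A, first order part -/
theorem A1 (hreal : ∀ x, x ≠ 0 → ∃ a b c : ℝ, RR3 (S.L x) a b c) {x : E4} (hx : x ≠ 0)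
    {z : V3} (hz : z ≠ 0) (hzz : S.g x z z = 0) {μ : ℝ} (hL : S.L x *ᵥ z = μ • z)
    (hl : S.g x (S.lam x) z ≠ 0) (hb : (S.L x).trace - 2 * μ ≠ μ) :
    ∃ n e, NFrame (S.G x) z n e ∧ S.L x *ᵥ n = μ • n ∧
      S.L x *ᵥ e = ((S.L x).trace - 2 * μ) • e := by
  have hLor := S.A1_Lor hx
  have hG := S.symm x hx
  obtain ⟨a, b₀, c, hr₀⟩ := hreal x hx
  obtain ⟨b, hr⟩ := A1_double hLor (S.selfadj x hx) hr₀ hz hzz hL
  have htr : (S.L x).trace - 2 * μ = b := by
    rw [(A1_sym hr).1]; ring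
  rw [htr] at hb ⊢
  have hK := S.A1_Klam hreal hx hr hb
  obtain ⟨z', n', e', C, hf, hz', hn', he'⟩ := LA_double hLor (S.selfadj x hx) hr hb hz hL hzz.le
  set A : M3 := S.L x - μ • (1 : M3) with hA
  have hAz : A *ᵥ z' = 0 := by
    rw [hA, sub_mulVec, smul_mulVec, one_mulVec, hz', sub_self]
  have hAn : A *ᵥ n' = C • z' := by
    rw [hA, sub_mulVec, smul_mulVec, one_mulVec, hn', add_sub_cancel_left]
  have hAe : A *ᵥ e' = (b - μ) • e' := by
    rw [hA, sub_mulVec, smul_mulVec, one_mulVec, he', sub_smul]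
  have hAzz : A *ᵥ z = 0 := by
    rw [hA, sub_mulVec, smul_mulVec, one_mulVec, hL, sub_self]
  obtain ⟨hx1, hx2, -⟩ := A1_sym (A1_shift hr μ)
  have hE0 : A.adjugate.trace = 0 := by rw [hA, hx2]; ring
  have hT0 : A.trace = b - μ := by rw [hA, hx1]; ring
  have hbμ : b - μ ≠ 0 := sub_ne_zero.2 hb
  have h2K : ∀ v, (2 : ℝ) • (S.K μ x *ᵥ v) =
      (2 : ℝ) • (A *ᵥ (A *ᵥ v)) - (2 * (b - μ)) • (A *ᵥ v) := fun v => by
    have := A1_adj_mulVec A v
    rw [hE0, hT0, mul_zero, zero_smul, add_zero] at this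
    exact this
  have hKlam : (2 : ℝ) • (S.K μ x *ᵥ S.lam x) =
      (-(2 * (b - μ)) * C * S.g x (S.lam x) z') • z' := by
    rw [h2K]
    have hexp := hf.expand hG (S.lam x)
    have h1 : A *ᵥ S.lam x = (S.g x (S.lam x) z' * C) • z' +
        (S.g x (S.lam x) e' * (b - μ)) • e' := by
      conv_lhs => rw [hexp]
      rw [mulVec_add, mulVec_add, mulVec_smul, mulVec_smul, mulVec_smul, hAz, hAn, hAe, smul_zero,
        zero_add, smul_smul, smul_smul]
      rfl
    rw [h1, mulVec_add, mulVec_smul, mulVec_smul, hAz, hAe]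
    module
  have hz'0 : z' ≠ 0 := by
    rintro rfl
    have := hf.zn
    simp [bil] at this
  have hC : C = 0 := by
    by_contra hC
    have hl' : S.g x (S.lam x) z' = 0 := by
      rw [hK, smul_zero] at hKlam
      have h3 := (smul_eq_zero.1 hKlam.symm).resolve_right hz'0
      rcases mul_eq_zero.1 h3 with h4 | h4
      · rcases mul_eq_zero.1 h4 with h5 | h5
        · exfalso; apply hbμ; linarith
        · exact absurd h5 hC
      · exact h4
    have hexp := hf.expand hG z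
    have h1 : A *ᵥ z = (S.g x z z' * C) • z' + (S.g x z e' * (b - μ)) • e' := by
      conv_lhs => rw [hexp]
      rw [mulVec_add, mulVec_add, mulVec_smul, mulVec_smul, mulVec_smul, hAz, hAn, hAe, smul_zero,
        zero_add, smul_smul, smul_smul]
      rfl
    rw [hAzz] at h1
    have hb1 : S.g x z z' = 0 := by
      have h2 := congrArg (fun u => bil (S.G x) u n') h1
      simp only [GA_bil_add_left, GA_bil_smul_left] at h2
      rw [hf.zn, GA_bil_symm hG e' n', hf.ne] at h2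
      have h3 : bil (S.G x) 0 n' = 0 := by simp [bil]
      rw [h3] at h2
      have h4 : S.g x z z' * C = 0 := by linarith
      exact (mul_eq_zero.1 h4).resolve_right hC
    have hb2 : S.g x z e' = 0 := by
      have h2 := congrArg (fun u => bil (S.G x) u e') h1
      simp only [GA_bil_add_left, GA_bil_smul_left] at h2
      rw [hf.ze, hf.ee] at h2
      have h3 : bil (S.G x) 0 e' = 0 := by simp [bil]
      rw [h3] at h2
      have h4 : S.g x z e' * (b - μ) = 0 := by linarith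
      exact (mul_eq_zero.1 h4).resolve_right hbμ
    apply hl
    have hb1' : bil (S.G x) z z' = 0 := hb1
    have hb2' : bil (S.G x) z e' = 0 := hb2
    rw [hb1', hb2', zero_smul, zero_smul, add_zero, add_zero] at hexp
    rw [hexp]
    unfold Geo.g at hl' ⊢
    rw [GA_bil_smul_right, hl', mul_zero]
  have horth : bil (S.G x) z e' = 0 := LA_orth hG (S.selfadj x hx) (Ne.symm hb) hL he'
  obtain ⟨n, hn⟩ := LA_frame hLor hz hzz hf.ee horth
  refine ⟨n, e', hn, ?_, he'⟩
  have hexp := hf.expand hG n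
  have h1 : A *ᵥ n = 0 := by
    conv_lhs => rw [hexp]
    rw [mulVec_add, mulVec_add, mulVec_smul, mulVec_smul, mulVec_smul, hAz, hAn, hAe, hC, hn.ne]
    simp
  rw [hA, sub_mulVec, smul_mulVec, one_mulVec, sub_eq_zero] at h1
  exact h1

end Geo

end Pool.Agent.helper68.B2
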