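import Pool.Agent.helper63.B2.A1
import Pool.Agent.helper46.B2.GB
import Pool.Agent.helper31.B2.NG

/-! # B2 wave 3, module A2: Lemma A, derivatives along the null geodesic -/

set_option autoImplicit false

namespace Pool.Agent.helper68.B2

open scoped ContDiff Topology Matrix
open Matrix Set Filter

namespace Geo
variable (S : Geo)

theorem A2_g_add_left (x : E4) (u u' v : V3) : S.g x (u + u') v = S.g x u v + S.g x u' v :=
  GA_bil_add_left _ u u' v

theorem A2_g_smul_left (x : E4) (c : ℝ) (u v : V3) : S.g x (c • u) v = c * S.g x u v :=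
  GA_bil_smul_left _ c u v

theorem A2_g_zero_right (x : E4) (u : V3) : S.g x u 0 = 0 := by simp [Geo.g, bil]

theorem A2_g_zero_left (x : E4) (u : V3) : S.g x 0 u = 0 := by simp [Geo.g, bil]

/-- the rank one form of `L - m` at a point of the curve -/
theorem A2_rank (hreal : ∀ x, x ≠ 0 → ∃ a b c : ℝ, RR3 (S.L x) a b c) {x : E4} (hx : x ≠ 0)
    {z : V3} (hz : z ≠ 0) (hzz : S.g x z z = 0) {m b : ℝ} (hL : S.L x *ᵥ z = m • z)
    (hl : S.g x (S.lam x) z ≠ 0) (htr : (S.L x).trace = 2 * m + b) (hb : b ≠ m) (n e : V3)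
    (hf : NFrame (S.G x) z n e) :
    S.g x (S.L x *ᵥ n) e ^ 2 = (S.g x (S.L x *ᵥ e) e - m) * S.g x (S.L x *ᵥ n) n := by
  have hG := S.symm x hx
  have hb' : (S.L x).trace - 2 * m = b := by rw [htr]; ring
  obtain ⟨n', e', hf', hn', he'⟩ := S.A1 hreal hx hz hzz hL hl (by rw [hb']; exact hb)
  rw [hb'] at he'
  -- `L u = m u + (b - m) g(u,e') e'`
  have hLu : ∀ u, S.L x *ᵥ u = m • u + ((b - m) * S.g x u e') • e' := by
    intro u
    have hexp := hf'.expand hG u
    have h1 : S.L x *ᵥ u = bil (S.G x) u n' • (m • z) + bil (S.G x) u z • (m • n') +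
        bil (S.G x) u e' • (b • e') := by
      conv_lhs => rw [hexp]
      rw [mulVec_add, mulVec_add, mulVec_smul, mulVec_smul, mulVec_smul, hL, hn', he']
    rw [h1]
    have h2 : m • u = m • (bil (S.G x) u n' • z + bil (S.G x) u z • n' +
      bil (S.G x) u e' • e') := by rw [← hexp]
    rw [h2]
    unfold Geo.g
    module
  have h1 : S.g x (S.L x *ᵥ n) e = (b - m) * S.g x n e' * S.g x e' e := by
    rw [hLu, S.A2_g_add_left, S.A2_g_smul_left, S.A2_g_smul_left]
    have : S.g x n e = 0 := hf.ne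
    rw [this]; ring
  have h2 : S.g x (S.L x *ᵥ n) n = (b - m) * S.g x n e' * S.g x e' n := by
    rw [hLu, S.A2_g_add_left, S.A2_g_smul_left, S.A2_g_smul_left]
    have : S.g x n n = 0 := hf.nn
    rw [this]; ring
  have h3 : S.g x (S.L x *ᵥ e) e = m + (b - m) * S.g x e e' * S.g x e' e := by
    rw [hLu, S.A2_g_add_left, S.A2_g_smul_left, S.A2_g_smul_left]
    have : S.g x e e = 1 := hf.ee
    rw [this]; ring
  rw [h1, h2, h3, S.g_symm hx e e', S.g_symm hx e' n]
  ring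

/-- eigenvectors of `Lam` in a block -/
theorem A2_Lam {x : E4} (hx : x ≠ 0) {z n e : V3} (hf : NFrame (S.G x) z n e) {μ : ℝ}
    (hL : S.L x *ᵥ z = μ • z) (hLn : S.L x *ᵥ n = μ • n) :
    ∃ θ : ℝ, S.Lam x *ᵥ z = θ • z ∧ S.Lam x *ᵥ n = θ • n := by
  have hG := S.symm x hx
  have hz0 : z ≠ 0 := by
    rintro rfl
    have := hf.zn
    simp [bil] at this
  have hn0 : n ≠ 0 := by
    rintro rfl
    have := hf.zn
    simp [bil] at this
  have hzn0 : z + n ≠ 0 := by
    intro h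
    have h1 : bil (S.G x) (z + n) n = 0 := by rw [h]; simp [bil]
    rw [GA_bil_add_left, hf.zn, hf.nn] at h1
    norm_num at h1
  obtain ⟨θ, hθ⟩ := S.F1 hx hz0 hL
  obtain ⟨θ₂, hθ₂⟩ := S.F1 hx hn0 hLn
  obtain ⟨θ₃, hθ₃⟩ := S.F1 hx (z := z + n) (μ := μ) hzn0 (by rw [mulVec_add, hL, hLn, smul_add])
  rw [mulVec_add, hθ, hθ₂, smul_add] at hθ₃
  have h1 : θ = θ₃ := by
    have h2 := congrArg (fun u => bil (S.G x) u n) hθ₃
    simp only [GA_bil_add_left, GA_bil_smul_left] at h2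
    rw [hf.zn, hf.nn] at h2
    linarith
  have h2 : θ₂ = θ₃ := by
    have h2 := congrArg (fun u => bil (S.G x) u z) hθ₃
    simp only [GA_bil_add_left, GA_bil_smul_left] at h2
    rw [hf.zz, GA_bil_symm hG n z, hf.zn] at h2
    linarith
  exact ⟨θ, hθ, by rw [hθ₂, h2, h1]⟩

/-! ## b2:A2  Lemma A, derivative along the null geodesic -/
theorem A2 (hreal : ∀ x, x ≠ 0 → ∃ a b c : ℝ, RR3 (S.L x) a b c) {x : E4} (hx : x ≠ 0)
    {z n e : V3} (hf : NFrame (S.G x) z n e) {μ b : ℝ} (hL : S.L x *ᵥ z = μ • z)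
    (hLn : S.L x *ᵥ n = μ • n) (hLe : S.L x *ᵥ e = b • e) (hb : b ≠ μ)
    (hl : S.g x (S.lam x) z ≠ 0) :
    S.g x (S.lam x) n = 0 ∧ ∃ θ : ℝ, S.Lam x *ᵥ z = θ • z ∧ S.Lam x *ᵥ n = θ • n ∧
      θ * (b - μ) = S.g x (S.lam x) e ^ 2 := by
  have hG := S.symm x hx
  obtain ⟨θ, hθz, hθn⟩ := S.A2_Lam hx hf hL hLn
  obtain ⟨δ, hδ, γ, zt, nt, et, hγ0, hz0, hn0, he0, hcurve⟩ := S.null_geodesic hx hf hL
  set l : ℝ := S.g x (S.lam x) z with hldef
  -- trace at `x`
  have htr0 : (S.L x).trace = 2 * μ + b := by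
    have h1 : S.L x = μ • (1 : M3) + (b - μ) • vecMulVec e (S.G x *ᵥ e) := by
      refine hf.ext hG ?_ ?_ ?_
      · rw [add_mulVec, smul_mulVec, one_mulVec, smul_mulVec, GA_vecMulVec_mulVec,
          dotProduct_comm]
        have h2 : z ⬝ᵥ S.G x *ᵥ e = 0 := hf.ze
        rw [h2, hL]; simp
      · rw [add_mulVec, smul_mulVec, one_mulVec, smul_mulVec, GA_vecMulVec_mulVec,
          dotProduct_comm]
        have h2 : n ⬝ᵥ S.G x *ᵥ e = 0 := hf.ne
        rw [h2, hLn]; simp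
      · rw [add_mulVec, smul_mulVec, one_mulVec, smul_mulVec, GA_vecMulVec_mulVec,
          dotProduct_comm]
        have h2 : e ⬝ᵥ S.G x *ᵥ e = 1 := hf.ee
        rw [h2, hLe]; module
    rw [h1, Matrix.trace_add, Matrix.trace_smul, Matrix.trace_smul, GA_trace_vecMulVec]
    have h2 : e ⬝ᵥ S.G x *ᵥ e = 1 := hf.ee
    rw [h2]
    simp
    ring
  -- the functions
  set E : ℝ → ℝ := fun t => S.g (γ t) (S.L (γ t) *ᵥ nt t) (et t) with hE
  set C : ℝ → ℝ := fun t => S.g (γ t) (S.L (γ t) *ᵥ nt t) (nt t) with hC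
  set D : ℝ → ℝ := fun t => S.g (γ t) (S.L (γ t) *ᵥ et t) (et t) - (μ + l * t) with hD
  set a : ℝ → ℝ := fun t => S.g (γ t) (S.lam (γ t)) (nt t) with ha
  set q : ℝ → ℝ := fun t => S.g (γ t) (S.lam (γ t)) (et t) with hq
  -- derivatives
  have hderiv : ∀ t ∈ Ioo (-δ) δ, HasDerivAt E (q t) t ∧ HasDerivAt C (2 * a t) t ∧
      HasDerivAt D (-l) t := by
    intro t ht
    obtain ⟨hγt, hγ', hz', hn', he', hft, hLt, hlt, -⟩ := hcurve t ht
    have hn'' : HasDerivAt nt (0 - S.Gam (zt t) (γ t) *ᵥ nt t) t := by rw [zero_sub]; exact hn'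
    have he'' : HasDerivAt et (0 - S.Gam (zt t) (γ t) *ᵥ et t) t := by rw [zero_sub]; exact he'
    have hdL := S.GA_diffL hγt
    have hLn' := S.along_mulVec hγ' hdL hn''
    have hLe' := S.along_mulVec hγ' hdL he''
    rw [mulVec_zero, add_zero] at hLn' hLe'
    have zn1 : S.g (γ t) (zt t) (nt t) = 1 := hft.zn
    have ze0 : S.g (γ t) (zt t) (et t) = 0 := hft.ze
    refine ⟨?_, ?_, ?_⟩
    · have h1 := S.along_g hγt hγ' hLn' he''
      rw [S.A2_g_zero_right, add_zero, S.main_v hγt, S.g_symm hγt, S.g_od hγt] at h1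
      convert h1 using 1
      rw [zn1, ze0]
      simp only [hq]
      ring
    · have h1 := S.along_g hγt hγ' hLn' hn''
      rw [S.A2_g_zero_right, add_zero, S.main_v hγt, S.g_symm hγt, S.g_od hγt] at h1
      convert h1 using 1
      rw [zn1]
      simp only [ha]
      ring
    · have h1 := S.along_g hγt hγ' hLe' he''
      rw [S.A2_g_zero_right, add_zero, S.main_v hγt, S.g_symm hγt, S.g_od hγt, ze0] at h1
      have h2 : HasDerivAt (fun t : ℝ => μ + l * t) l t := by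
        simpa using ((hasDerivAt_id t).const_mul l).const_add μ
      exact (h1.sub h2).congr_deriv (by ring)
  have h00 : (0 : ℝ) ∈ Ioo (-δ) δ := ⟨by linarith, hδ⟩
  have haq : HasDerivAt a θ 0 ∧ HasDerivAt q 0 0 := by
    obtain ⟨hγt, hγ', hz', hn', he', hft, hLt, hlt, -⟩ := hcurve 0 h00
    have hn'' : HasDerivAt nt (0 - S.Gam (zt 0) (γ 0) *ᵥ nt 0) 0 := by rw [zero_sub]; exact hn'
    have he'' : HasDerivAt et (0 - S.Gam (zt 0) (γ 0) *ᵥ et 0) 0 := by rw [zero_sub]; exact he'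
    have hdl : DifferentiableAt ℝ S.lam (γ 0) := S.smlam.differentiableAt hγt
    have hlam := S.along_vec hγ' hdl
    rw [← S.Lam_mulVec] at hlam
    refine ⟨?_, ?_⟩
    · have h1 := S.along_g hγt hγ' hlam hn''
      rw [S.A2_g_zero_right, add_zero] at h1
      convert h1 using 1
      rw [hγ0, hz0, hn0, hθz, S.A2_g_smul_left]
      have : S.g x z n = 1 := hf.zn
      rw [this, mul_one]
    · have h1 := S.along_g hγt hγ' hlam he''
      rw [S.A2_g_zero_right, add_zero] at h1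
      convert h1 using 1
      rw [hγ0, hz0, he0, hθz, S.A2_g_smul_left]
      have : S.g x z e = 0 := hf.ze
      rw [this, mul_zero]
  -- the relation near `0`
  have hrel : ∀ᶠ t in 𝓝 (0 : ℝ), E t ^ 2 = D t * C t := by
    have h1 : ∀ᶠ t in 𝓝 (0 : ℝ), t ∈ Ioo (-δ) δ := Ioo_mem_nhds h00.1 h00.2
    have h2 : ∀ᶠ t in 𝓝 (0 : ℝ), b ≠ μ + l * t := by
      have hc : ContinuousAt (fun t : ℝ => μ + l * t) 0 := by fun_prop
      have h3 := hc.eventually_ne (y := b) (by simpa using Ne.symm hb)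
      filter_upwards [h3] with t ht using Ne.symm ht
    filter_upwards [h1, h2] with t ht hbt
    obtain ⟨hγt, hγ', hz', hn', he', hft, hLt, hlt, htr⟩ := hcurve t ht
    have hzt0 : zt t ≠ 0 := by
      intro h
      have := hft.zn
      rw [h] at this
      simp [bil] at this
    refine S.A2_rank hreal hγt hzt0 hft.zz hLt (by rw [hlt]; exact hl) ?_ hbt (nt t) (et t) hft
    rw [htr, htr0]
    ring
  have hE0 : E 0 = 0 := by
    simp only [hE, hγ0, hn0, he0, hLn]
    rw [S.A2_g_smul_left]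
    have : S.g x n e = 0 := hf.ne
    rw [this, mul_zero]
  have hC0 : C 0 = 0 := by
    simp only [hC, hγ0, hn0, hLn]
    rw [S.A2_g_smul_left]
    have : S.g x n n = 0 := hf.nn
    rw [this, mul_zero]
  have hD0 : D 0 = b - μ := by
    simp only [hD, hγ0, he0, hLe]
    rw [S.A2_g_smul_left]
    have : S.g x e e = 1 := hf.ee
    rw [this]; ring
  -- first derivative of the relation
  have hrel1 : ∀ᶠ t in 𝓝 (0 : ℝ), 2 * E t * q t = -l * C t + D t * (2 * a t) := by
    have h1 : ∀ᶠ t in 𝓝 (0 : ℝ), t ∈ Ioo (-δ) δ := Ioo_mem_nhds h00.1 h00.2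
    filter_upwards [h1, hrel.eventually_nhds] with t ht hr
    obtain ⟨hE', hC', hD'⟩ := hderiv t ht
    have h3 : HasDerivAt (fun s => E s ^ 2) (q t * E t + E t * q t) t :=
      (hE'.mul hE').congr_of_eventuallyEq (Filter.Eventually.of_forall fun s => sq (E s))
    have h4 : HasDerivAt (fun s => D s * C s) (-l * C t + D t * (2 * a t)) t := hD'.mul hC'
    have h5 : HasDerivAt (fun s => E s ^ 2) (-l * C t + D t * (2 * a t)) t :=
      h4.congr_of_eventuallyEq hr
    have h6 := h3.unique h5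
    linarith
  have hbμ : b - μ ≠ 0 := sub_ne_zero.2 hb
  have ha0 : a 0 = 0 := by
    have h1 := hrel1.self_of_nhds
    rw [hE0, hC0, hD0] at h1
    have h2 : (b - μ) * a 0 = 0 := by linarith
    exact (mul_eq_zero.1 h2).resolve_left hbμ
  have ha0' : S.g x (S.lam x) n = 0 := by
    have h1 : a 0 = S.g x (S.lam x) n := by simp only [ha, hγ0, hn0]
    rw [← h1, ha0]
  have hq0' : q 0 = S.g x (S.lam x) e := by simp only [hq, hγ0, he0]
  refine ⟨ha0', θ, hθz, hθn, ?_⟩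
  obtain ⟨hE', hC', hD'⟩ := hderiv 0 h00
  have h3 : HasDerivAt (fun s => 2 * E s * q s) (2 * q 0 * q 0 + 2 * E 0 * 0) 0 :=
    (hE'.const_mul 2).mul haq.2
  have h4 : HasDerivAt (fun s => -l * C s + D s * (2 * a s))
      (-l * (2 * a 0) + (-l * (2 * a 0) + D 0 * (2 * θ))) 0 :=
    (hC'.const_mul (-l)).add (hD'.mul (haq.1.const_mul 2))
  have h5 := h3.unique (h4.congr_of_eventuallyEq hrel1)
  rw [hE0, ha0, hD0, hq0'] at h5
  linarith

end Geo

end Pool.Agent.helper68.B2
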